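import Mathlib
import Pool.Agent.N718.DC.All
import Pool.Agent.N546.PN.All
import Pool.Agent.N546.PN.Fin

/-!
# The Hasse principle for 100% of the diagonal conic bundles over `ℙⁿ`, `n ≥ 2`, of arbitrary degrees,
# and of their fibre products (helper546)

Let `n ≥ 2`, `r ≥ 0`, and let `d_{i,l} ≥ 1`, `i < r`, `l < 3`, be integers such that `d_{i,0}`, `d_{i,1}`,
`d_{i,2}` have the same parity for all `i`. Let `F_{i,l}` be forms of degree `d_{i,l}` in `x_0, …, x_n` with
integral coefficients. They define the fibre product `X_F` over `ℙⁿ` of the conic bundles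

  `F_{i,0}(x) u_i² + F_{i,1}(x) v_i² = F_{i,2}(x) w_i²`, `i < r`,

a closed subvariety of a fibre product of `r` bundles of projective planes over `ℙⁿ`: with integers
`a_{i,l}` such that `d_{i,l} + 2 a_{i,l}` does not depend on `l`, the coordinates `(u_i, v_i, w_i)` are
sections of `O(a_{i,0}) ⊕ O(a_{i,1}) ⊕ O(a_{i,2})`, so that the points of `X_F` over a field `K` are the
classes of the solutions `(x, z)` with `x ≠ 0` and all `z i = (u_i, v_i, w_i) ≠ 0` for a free action of
the torus `G_m^(r+1)`. For `r = 1` and equal degrees `X_F` is a diagonal hypersurface of bidegree `(d, 2)` in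
`ℙⁿ × ℙ²`, of dimension `n + 1 ≥ 3` and rationally connected for all `d`.

If `X_F` is smooth of dimension `n + r`, it is geometrically rationally connected, as a fibration
over `ℙⁿ` in products of conics. We order the families `F` by the maximum `H` of the absolute
values of their coefficients. Almost all `X_F` are smooth, a positive proportion has points over the real
numbers and over all `ℚ_p`, and 100% of the smooth `X_F` with points everywhere locally have a rational
point.

The case of equal degrees is treated on the page of the Fano varieties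
(`Pool/Agent/Results/MP_03ef3d_ag/DiagonalConicBundles.lean`), where the proof is described. It uses the
theorem for `ℙ¹` (helper718, `MP_12adaf_nt.RandomDiagonalConicBundles`).
-/

set_option autoImplicit false

namespace Pool.Agent.Results.MP_e426f4_ag.ConicBundlesOverProjectiveSpaces

open Filter Topology MvPolynomial

/-- The families of forms `F (i, l)` of degree `d (i, l)` in `n + 1` variables whose coefficients are
integers of absolute value at most `H`. -/
def Families (n : ℕ) {r : ℕ} (d : Fin r × Fin 3 → ℕ) (H : ℕ) :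
    Set (Fin r × Fin 3 → MvPolynomial (Fin (n + 1)) ℤ) :=
  {F | ∀ k, (F k).IsHomogeneous (d k) ∧ ∀ a, |(F k).coeff a| ≤ (H : ℤ)}

/-- `(x, z)` are homogeneous coordinates of a point of `X_F` over the field `K`. -/
def IsPoint {n r : ℕ} (F : Fin r × Fin 3 → MvPolynomial (Fin (n + 1)) ℤ) {K : Type} [Field K]
    (x : Fin (n + 1) → K) (z : Fin r → Fin 3 → K) : Prop :=
  x ≠ 0 ∧ ∀ i, z i ≠ 0 ∧
    aeval x (F (i, 0)) * z i 0 ^ 2 + aeval x (F (i, 1)) * z i 1 ^ 2 = aeval x (F (i, 2)) * z i 2 ^ 2

/-- `X_F` is a smooth complete intersection: at every point over a field of characteristic zero the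
differentials of the `r` equations are linearly independent. The partial derivative of the `i`-th
equation with respect to `z i l` is, up to the factor `2` or `-2`, the product `F (i, l) (x) z i l`. -/
def Smooth {n r : ℕ} (F : Fin r × Fin 3 → MvPolynomial (Fin (n + 1)) ℤ) : Prop :=
  ∀ (K : Type) [Field K] [CharZero K] (x : Fin (n + 1) → K) (z : Fin r → Fin 3 → K), IsPoint F x z →
    ∀ t : Fin r → K, t ≠ 0 →
      (∃ a, ∑ i, t i * (aeval x (pderiv a (F (i, 0))) * z i 0 ^ 2 +
        aeval x (pderiv a (F (i, 1))) * z i 1 ^ 2 - aeval x (pderiv a (F (i, 2))) * z i 2 ^ 2) ≠ 0) ∨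
      ∃ i l, t i * (aeval x (F (i, l)) * z i l) ≠ 0

/-- `X_F` has a point over the field `K`. -/
def HasPoint {n r : ℕ} (F : Fin r × Fin 3 → MvPolynomial (Fin (n + 1)) ℤ) (K : Type) [Field K] :
    Prop :=
  ∃ (x : Fin (n + 1) → K) (z : Fin r → Fin 3 → K), IsPoint F x z

/-- `X_F` has points over the real numbers and over all the `p`-adic fields. -/
def LocallySoluble {n r : ℕ} (F : Fin r × Fin 3 → MvPolynomial (Fin (n + 1)) ℤ) : Prop :=
  HasPoint F ℝ ∧ ∀ (p : ℕ) [Fact p.Prime], HasPoint F ℚ_[p]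

open Pool.Agent.N546.PN Pool.Agent.N665.PN in
theorem isPoint_iff {n r : ℕ} {e : Fin r × Fin 3 → ℕ} {F : Fin r × Fin 3 → MvPolynomial (Fin (n + 1)) ℤ}
    (hF : ∀ k, (F k).IsHomogeneous (e k + 1)) {K : Type} [Field K] (x : Fin (n + 1) → K)
    (z : Fin r → Fin 3 → K) :
    IsPoint F x z ↔ IsP (ic (fun k => (cof (F k) : Mon n (e k + 1) → ℤ)) K) x z := by
  unfold IsPoint IsP
  refine and_congr Iff.rfl (forall_congr' fun i => and_congr Iff.rfl ?_)
  rw [conv_val n _ _ (hF (i, 0)) K x, conv_val n _ _ (hF (i, 1)) K x,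
    conv_val n _ _ (hF (i, 2)) K x]
  exact Iff.rfl

open Pool.Agent.N546.PN Pool.Agent.N665.PN in
theorem smooth_iff {n r : ℕ} {e : Fin r × Fin 3 → ℕ} {F : Fin r × Fin 3 → MvPolynomial (Fin (n + 1)) ℤ}
    (hF : ∀ k, (F k).IsHomogeneous (e k + 1)) :
    Smooth F ↔ ∀ (K : Type) [Field K] [CharZero K],
      SmK (ic (fun k => (cof (F k) : Mon n (e k + 1) → ℤ)) K) := by
  unfold Smooth SmK
  refine forall_congr' fun K => forall_congr' fun _ => forall_congr' fun _ => forall_congr' fun x =>
    forall_congr' fun z => ?_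
  rw [isPoint_iff hF]
  refine forall_congr' fun _ => forall_congr' fun t => forall_congr' fun _ => ?_
  simp only [fun (k : Fin r × Fin 3) (a : Fin (n + 1)) => conv_dval n _ _ (hF k) K x a,
    fun (k : Fin r × Fin 3) => conv_val n _ _ (hF k) K x]
  exact Iff.rfl

open Pool.Agent.N546.PN Pool.Agent.N665.PN in
theorem hasPoint_iff {n r : ℕ} {e : Fin r × Fin 3 → ℕ} {F : Fin r × Fin 3 → MvPolynomial (Fin (n + 1)) ℤ}
    (hF : ∀ k, (F k).IsHomogeneous (e k + 1)) (K : Type) [Field K] :
    HasPoint F K ↔ ∃ x z, IsP (ic (fun k => (cof (F k) : Mon n (e k + 1) → ℤ)) K) x z := by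
  unfold HasPoint
  exact exists_congr fun x => exists_congr fun z => isPoint_iff hF x z

/-- **The Hasse principle for 100% of the diagonal conic bundles over `ℙⁿ` of arbitrary degrees and of
their fibre products.** -/
theorem result (n : ℕ) (hn : 2 ≤ n) {r : ℕ} (d : Fin r × Fin 3 → ℕ) (hd : ∀ k, 1 ≤ d k)
    (hpar : ∀ i l l', d (i, l) % 2 = d (i, l') % 2) :
    (∃ c₀ : ℝ, 0 < c₀ ∧ ∀ᶠ H : ℕ in atTop, c₀ * ((Families n d H).ncard : ℝ) ≤
      (({F | F ∈ Families n d H ∧ Smooth F ∧ LocallySoluble F} : Set _).ncard : ℝ)) ∧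
    Tendsto (fun H : ℕ =>
      (({F | F ∈ Families n d H ∧ Smooth F ∧ HasPoint F ℚ} : Set _).ncard : ℝ) /
      (({F | F ∈ Families n d H ∧ Smooth F ∧ LocallySoluble F} : Set _).ncard : ℝ))
      atTop (𝓝 1) := by
  classical
  obtain ⟨e, rfl⟩ : ∃ e : Fin r × Fin 3 → ℕ, d = fun k => e k + 1 :=
    ⟨fun k => d k - 1, funext fun k => (Nat.sub_add_cancel (hd k)).symm⟩
  have he : ∀ i l l', e (i, l) % 2 = e (i, l') % 2 := by
    intro i l l'
    have := hpar i l l'
    simp only at this
    omega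
  obtain ⟨⟨c₀, hc₀, h1⟩, h2⟩ := Pool.Agent.N546.PN.fin_count (n := n) (r := r) (e := e) he hn
  have e1 : ∀ H : ℕ, ({F | F ∈ Families n (fun k => e k + 1) H ∧ Smooth F ∧ LocallySoluble F} :
      Set (Fin r × Fin 3 → MvPolynomial (Fin (n + 1)) ℤ)).ncard =
      ((Pool.Agent.N546.PN.bx n e H).filter (fun c =>
        (∀ (K : Type) [Field K] [CharZero K], Pool.Agent.N546.PN.SmK (Pool.Agent.N546.PN.ic c K)) ∧
        ((∃ x z, Pool.Agent.N546.PN.IsP (Pool.Agent.N546.PN.ic c ℝ) x z) ∧
          ∀ (p : ℕ) [Fact p.Prime], ∃ x z,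
            Pool.Agent.N546.PN.IsP (Pool.Agent.N546.PN.ic c ℚ_[p]) x z))).card := by
    intro H
    refine Eq.trans ?_ ((Pool.Agent.N665.PN.conv_card n (Fin r × Fin 3) e H
      (fun c => (∀ (K : Type) [Field K] [CharZero K],
        Pool.Agent.N546.PN.SmK (Pool.Agent.N546.PN.ic c K)) ∧
        ((∃ x z, Pool.Agent.N546.PN.IsP (Pool.Agent.N546.PN.ic c ℝ) x z) ∧
          ∀ (p : ℕ) [Fact p.Prime], ∃ x z,
            Pool.Agent.N546.PN.IsP (Pool.Agent.N546.PN.ic c ℚ_[p]) x z))).trans (by congr!))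
    congr 1
    ext F
    simp only [Set.mem_ofPred_eq, Families]
    refine and_congr_right fun hF => ?_
    have hF' : ∀ k, (F k).IsHomogeneous (e k + 1) := fun k => (hF k).1
    rw [smooth_iff (e := e) hF']
    refine and_congr Iff.rfl ?_
    unfold LocallySoluble
    rw [hasPoint_iff (e := e) hF' ℝ]
    refine and_congr Iff.rfl (forall_congr' fun p => forall_congr' fun _ => ?_)
    exact hasPoint_iff (e := e) hF' ℚ_[p]
  have e2 : ∀ H : ℕ, ({F | F ∈ Families n (fun k => e k + 1) H ∧ Smooth F ∧ HasPoint F ℚ} :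
      Set (Fin r × Fin 3 → MvPolynomial (Fin (n + 1)) ℤ)).ncard =
      ((Pool.Agent.N546.PN.bx n e H).filter (fun c =>
        (∀ (K : Type) [Field K] [CharZero K], Pool.Agent.N546.PN.SmK (Pool.Agent.N546.PN.ic c K)) ∧
        (∃ x z, Pool.Agent.N546.PN.IsP (Pool.Agent.N546.PN.ic c ℚ) x z))).card := by
    intro H
    refine Eq.trans ?_ ((Pool.Agent.N665.PN.conv_card n (Fin r × Fin 3) e H
      (fun c => (∀ (K : Type) [Field K] [CharZero K],
        Pool.Agent.N546.PN.SmK (Pool.Agent.N546.PN.ic c K)) ∧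
        (∃ x z, Pool.Agent.N546.PN.IsP (Pool.Agent.N546.PN.ic c ℚ) x z))).trans (by congr!))
    congr 1
    ext F
    simp only [Set.mem_ofPred_eq, Families]
    refine and_congr_right fun hF => ?_
    have hF' : ∀ k, (F k).IsHomogeneous (e k + 1) := fun k => (hF k).1
    rw [smooth_iff (e := e) hF', hasPoint_iff (e := e) hF' ℚ]
  have e3 : ∀ H : ℕ, (Families n (fun k : Fin r × Fin 3 => e k + 1) H).ncard =
      (Pool.Agent.N546.PN.bx n e H).card := by
    intro H
    have h3 := Pool.Agent.N665.PN.conv_card n (Fin r × Fin 3) e H (fun _ => True)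
    rw [Finset.filter_true] at h3
    rw [← h3]
    congr 1
    ext F
    simp [Families]
  constructor
  · refine ⟨c₀, hc₀, ?_⟩
    filter_upwards [h1] with H h3
    rw [e1 H, e3 H]
    convert h3
  · refine h2.congr fun H => ?_
    rw [e1 H, e2 H]

end Pool.Agent.Results.MP_e426f4_ag.ConicBundlesOverProjectiveSpaces
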