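import Pool.Agent.N220.CF.Cn
import Pool.Agent.Results.MP_e426f4_ag.ProductsOfConics

/-!
# Brauer-Manin obstruction for the fibrations `yᵢ² - aᵢ zᵢ² = bᵢ t (f(t) + k)` in products of conics, for the denominators `k` of
# the convergents of almost every number

Let `f` be an integral polynomial of degree `d ≥ 1`, let `aᵢ`, `bᵢ` be nonzero integers, `i < r`, and let `T` be a finite set of
primes containing the small and the bad ones. There is ONE null set of real numbers, for all `r`, `f`, `aᵢ`, `bᵢ`, `T` and `N`,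
such that for every `ξ` outside of it and for all but finitely many of the convergents `p / q` of the continued fraction of `ξ`
the varieties `W_k : yᵢ² - aᵢ zᵢ² = bᵢ t (f(t) + k) ≠ 0`, `k = ± q`, have the property of `ProductsOfConics`: all families of
points of `W_k(ℚ_p)` of level `N`, `p` in `T`, and of a real point, are approximated by rational points of `W_k` (at the real
place only the sign of `t`), if the sum of the invariants of each algebra `(aᵢ, t)` at these points is `0` or if `d` is odd. The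
same holds for all simultaneous approximations: for almost all `α` in `R^n` and all `c` for all but finitely many `q` with
`|q α_j - p_j| ≤ c q^(-1/n)` for some integers `p_j`.
-/

set_option autoImplicit false

namespace Pool.Agent.Results.MP_e426f4_ag.ConvergentDenominators

open Finset Filter Polynomial MeasureTheory
open Pool.Agent.N220.CF (Approx finitely_family)
open Pool.Agent.Results.MP_e426f4_ag.ProductsOfConics (WB)

/-- the conditions on the polynomial, the coefficients and the set of primes -/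
structure Conditions {r : ℕ} (f : ℤ[X]) (a b : Fin r → ℤ) (T : Finset Nat.Primes) : Prop where
  degree : 1 ≤ f.natDegree
  a_ne_zero : ∀ i, a i ≠ 0
  b_ne_zero : ∀ i, b i ≠ 0
  bad : ∀ p : Nat.Primes, ((p : ℕ) ≤ 2 * f.natDegree ∨ ((p : ℕ) : ℤ) ∣ f.leadingCoeff * ∏ i, (a i * b i)) → p ∈ T

/-- **Fibrations in products of conics at the convergents of almost every number.** -/
theorem result :
    (∀ n : ℕ, 1 ≤ n → ∀ᵐ α : Fin n → ℝ, ∀ (r : ℕ) (f : ℤ[X]) (a b : Fin r → ℤ) (T : Finset Nat.Primes), Conditions f a b T →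
      ∀ (N : ℕ) (c : ℝ), {q : ℕ | Approx c (1 / n) α q ∧ ¬ (WB f a b T N q ∧ WB f a b T N (-(q : ℤ)))}.Finite) ∧
    ∀ᵐ ξ : ℝ, ∀ (r : ℕ) (f : ℤ[X]) (a b : Fin r → ℤ) (T : Finset Nat.Primes), Conditions f a b T →
      ∀ N : ℕ, ∀ᶠ n : ℕ in atTop, WB f a b T N (ξ.convergent n).den ∧ WB f a b T N (-((ξ.convergent n).den : ℤ)) := by
  haveI := Pool.Agent.N220.CF.countable_poly
  have h := finitely_family (ι := Σ r : ℕ, {x : ℤ[X] × (Fin r → ℤ) × (Fin r → ℤ) × Finset Nat.Primes × ℕ //
    Conditions x.1 x.2.1 x.2.2.1 x.2.2.2.1}) (fun x n => WB x.2.1.1 x.2.1.2.1 x.2.1.2.2.1 x.2.1.2.2.2.1 x.2.1.2.2.2.2 n)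
    (U := 2) le_rfl (by
      classical
      rintro ⟨r, ⟨f, a, b, T, N⟩, hc⟩
      obtain ⟨X₀, hX₀⟩ := Pool.Agent.Results.MP_e426f4_ag.ProductsOfConics.result r f hc.degree a b hc.a_ne_zero hc.b_ne_zero T
        hc.bad N 2
      refine ⟨X₀, fun X hX => le_trans (le_of_eq ?_) (hX₀ X hX)⟩
      congr!)
  refine ⟨fun n hn => ?_, ?_⟩
  · filter_upwards [h.1 n hn] with α hα r f a b T hc N c
    exact hα ⟨r, ⟨f, a, b, T, N⟩, hc⟩ c
  · filter_upwards [h.2] with ξ hξ r f a b T hc N
    exact hξ ⟨r, ⟨f, a, b, T, N⟩, hc⟩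

end Pool.Agent.Results.MP_e426f4_ag.ConvergentDenominators
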