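import Pool.Agent.N918.MS.Cnt
import Pool.Agent.Results.MP_e426f4_ag.ProductsOfConics

/-!
# Fibrations in products of conics along random and metric sequences

Let `f` be an integral polynomial in one variable of degree at least one, let `aᵢ`, `bᵢ` be nonzero integers, `i < r`, let `T` be
a finite set of primes which contains the primes up to `2 deg f` and the divisors of `lead(f) ∏ aᵢ bᵢ`, and let `N` be a level.
Say that the integer `k` is good for these data, if the fibration
`W_k : yᵢ² - aᵢ zᵢ² = bᵢ t (f(t) + k) ≠ 0` in products of conics has the property `WB` of the starting theorem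
`ProductsOfConics`: every family of local points of level `N` which is orthogonal to the classes `(aᵢ, t)` is approximated by
rational points. For ALL these data at once, outside of ONE event (set) of probability (measure) zero,

* for random integers `X_n`, of ANY dependence, with `P (X_n = k) ≤ C / (|k| + 1)`, almost surely all but finitely many `X_n`
  are good, if `|X_n| ≥ exp (n ^ δ)` outside of events with a convergent sum of probabilities; all but `M / (log M) ^ U` of
  the `X_n`, `n < M`, are good for all `U`, if `∑_{n < M} P (|X_n| < M ^ δ) ≤ C M ^ (1 - δ)`;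
* for all linear forms `a_n` in `d` variables with norms at least `exp (n ^ δ)`, for almost all vectors `α`, all but finitely
  many `⌊a_n (α)⌋` are good; the same for `⌊h_n (x)⌋`, for almost all `x` in an interval on which `|h_n'| ≥ c |h_n|` and
  `|h_n| ≥ exp (n ^ δ)`; the same for `⌊ξ x ^ n⌋`, for all `ξ ≠ 0` and almost all `x > 1`;
* for ANY sequence of real numbers `a_n` with mutual distances at least `δ > 0`, in any order, and almost all real `α` all but
  `M / (log M) ^ U` of the `⌊a_n α⌋`, `n < M`, are good, for all `U`.
-/

set_option autoImplicit false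

namespace Pool.Agent.Results.MP_e426f4_ag.MetricSequences

open Finset Filter Polynomial MeasureTheory
open Pool.Agent.N918.MS (AlmostAlways RandomAndMetric randomAndMetric)
open Pool.Agent.Results.MP_e426f4_ag.ProductsOfConics (WB)

/-- the data: a polynomial `f`, coefficients `aᵢ`, `bᵢ`, a finite set `T` of primes and a level `N` -/
structure Data where
  r : ℕ
  f : ℤ[X]
  a : Fin r → ℤ
  b : Fin r → ℤ
  T : Finset Nat.Primes
  N : ℕ

/-- the conditions on the polynomial, the coefficients and the set of primes -/
structure Data.Conditions (x : Data) : Prop where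
  degree : 1 ≤ x.f.natDegree
  a_ne_zero : ∀ i, x.a i ≠ 0
  b_ne_zero : ∀ i, x.b i ≠ 0
  bad : ∀ p : Nat.Primes, ((p : ℕ) ≤ 2 * x.f.natDegree ∨ ((p : ℕ) : ℤ) ∣ x.f.leadingCoeff * ∏ i, (x.a i * x.b i)) → p ∈ x.T

instance : Countable Data := by
  have := Pool.Agent.N918.MS.countable_poly
  have h : Function.Surjective (fun y : (Σ r : ℕ, ℤ[X] × (Fin r → ℤ) × (Fin r → ℤ) × Finset Nat.Primes × ℕ) =>
      (⟨y.1, y.2.1, y.2.2.1, y.2.2.2.1, y.2.2.2.2.1, y.2.2.2.2.2⟩ : Data)) :=
    fun x => ⟨⟨x.r, x.f, x.a, x.b, x.T, x.N⟩, rfl⟩
  exact h.countable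

/-- **Fibrations in products of conics along random and metric sequences.** -/
theorem result : RandomAndMetric (fun (x : {x : Data // x.Conditions}) k => WB x.1.f x.1.a x.1.b x.1.T x.1.N k) := by
  classical
  refine randomAndMetric _ ?_
  rintro ⟨x, hc⟩
  refine AlmostAlways.of_card fun U => ?_
  obtain ⟨X₀, hX₀⟩ := Pool.Agent.Results.MP_e426f4_ag.ProductsOfConics.result x.r x.f hc.degree x.a x.b hc.a_ne_zero
    hc.b_ne_zero x.T hc.bad x.N U
  refine ⟨X₀, fun X hX => le_trans (le_of_eq ?_) (hX₀ X hX)⟩
  congr!

end Pool.Agent.Results.MP_e426f4_ag.MetricSequences
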