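import Mathlib
import Pool.Agent.N718.DC.All4

/-!
# The Hasse principle for 100% of the diagonal quadric surface bundles over the projective line, and for
# their fibre products (helper718)

Let `r ≥ 0` and let `F_{i,l}`, `i < r`, `l < 4`, be binary forms with integral coefficients, of degrees
`e_{i,l} + 1` with `e_{i,0} ≡ … ≡ e_{i,3}` modulo `2`. Let `X_F` be the fibre product over `ℙ¹` of the `r`
quadric surface bundles `∑_l F_{i,l}(x, y) u_l² = 0`, a rationally connected variety of dimension
`2 r + 1`. For `r = 1` and equal degrees `d` these are the diagonal hypersurfaces of bidegree `(d, 2)` in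
`ℙ¹ × ℙ³`.

We order the families `F` by the maximum `H` of the absolute values of all their coefficients. A positive
proportion of the `X_F` has points over the real numbers and over all the `p`-adic numbers, and for 100%
of these the Hasse principle holds, together with approximation for the base points: at a finite set `S`
of primes to any given precision, and at the real place the base point can be prescribed in an open set.

Proof. As for the diagonal conic bundles (`MP_12adaf_nt.RandomDiagonalConicBundles`) we find a base point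
close to given local ones for which the values `F_{i,l}(x, y)` are different prime numbers, up to given
divisors composed of small primes: a second moment over two coefficients of each form, evaluated with the
theorem of Siegel and Walfisz. The quadric over such a point is soluble over all `ℚ_p` and so over `ℚ` by
the theorem of Hasse and Minkowski for four variables, which is proved on the way.
-/

set_option autoImplicit false

namespace Pool.Agent.Results.MP_e426f4_ag.RandomDiagonalQuadricBundles

open Finset Filter Topology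

/-- The value at the point `(x, y)` of the binary form `∑ c_j x^(e + 1 - j) y^j` of degree `e + 1`. -/
def value {e : ℕ} (c : Fin (e + 2) → ℤ) {K : Type} [CommRing K] (x y : K) : K :=
  ∑ j : Fin (e + 2), (c j : K) * x ^ (e + 1 - (j : ℕ)) * y ^ (j : ℕ)

/-- The quadric `∑ A_l u_l² = 0` in four variables has a point over the field `K`. -/
def Soluble {K : Type} [Field K] (A : Fin 4 → K) : Prop :=
  ∃ u : Fin 4 → K, u ≠ 0 ∧ ∑ l, A l * u l ^ 2 = 0

variable {r : ℕ} {e : Fin r × Fin 4 → ℕ}

/-- The fibre product of the quadric surface bundles `∑_l F_{i,l} u_l² = 0`, given by the families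
`c (i, l)` of the coefficients of the forms `F_{i,l}`, has a point over the field `K` over the base
point `(x, y)`, and this is not a base point of a degenerate fibre. -/
def HasPoint (c : (k : Fin r × Fin 4) → Fin (e k + 2) → ℤ) {K : Type} [Field K] (x y : K) : Prop :=
  (∀ k, value (c k) x y ≠ 0) ∧
    ∀ i, Soluble (fun l => value (c (i, l)) x y)

/-- There are a real point over a base point `(1, z)` with `z` in `U` and a `p`-adic point for every
prime number `p`. -/
def LocallySoluble (U : Set ℝ) (c : (k : Fin r × Fin 4) → Fin (e k + 2) → ℤ) : Prop :=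
  (∃ z ∈ U, HasPoint c (1 : ℝ) z) ∧ ∀ p : Nat.Primes, ∃ x y : ℚ_[(p : ℕ)], HasPoint c x y

/-- For all `p`-adic points, `p` in `S`, with primitive base points `(X p, Y p)`, there is a rational
point with an integral base point `(x, y)` which satisfies `x > 0`, `y / x ∈ U` and is congruent to the
`(X p, Y p)` modulo `p ^ N`, for all `p` in `S`. For `S = ∅` this says that there is a rational point with
`x > 0` and `y / x ∈ U`. -/
def Approximation (U : Set ℝ) (S : Finset Nat.Primes) (N : ℕ)
    (c : (k : Fin r × Fin 4) → Fin (e k + 2) → ℤ) : Prop :=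
  ∀ X Y : (p : Nat.Primes) → ℚ_[(p : ℕ)], (∀ p ∈ S, max ‖X p‖ ‖Y p‖ = 1 ∧ HasPoint c (X p) (Y p)) →
    ∃ x y : ℤ, 0 < x ∧ (y : ℝ) / x ∈ U ∧ HasPoint c (x : ℚ) (y : ℚ) ∧
      ∀ p ∈ S, ‖X p - (x : ℚ_[(p : ℕ)])‖ ≤ (((p : ℕ) : ℝ) ^ N)⁻¹ ∧
        ‖Y p - (y : ℚ_[(p : ℕ)])‖ ≤ (((p : ℕ) : ℝ) ^ N)⁻¹

/-- The families of forms whose coefficients are integers of absolute value at most `H`. -/
noncomputable def families (e : Fin r × Fin 4 → ℕ) (H : ℕ) :
    Finset ((k : Fin r × Fin 4) → Fin (e k + 2) → ℤ) :=
  Fintype.piFinset fun _ => Fintype.piFinset fun _ => Icc (-(H : ℤ)) H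

lemma card_families (e : Fin r × Fin 4 → ℕ) (H : ℕ) :
    ((families e H).card : ℝ) = ((2 * H + 1 : ℕ) : ℝ) ^ Pool.Agent.N718.DC.ncI e := by
  have h1 : ((Icc (-(H : ℤ)) H).card) = 2 * H + 1 := by
    rw [Int.card_Icc]
    omega
  unfold families Pool.Agent.N718.DC.ncI
  rw [Fintype.card_piFinset]
  simp only [Fintype.card_piFinset, h1, prod_const, card_univ, Fintype.card_fin]
  rw [← Finset.prod_pow_eq_pow_sum]
  push_cast
  rfl

open Classical in
/-- **The Hasse principle for 100% of the fibre products of diagonal quadric surface bundles.** -/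
theorem result (r : ℕ) (e : Fin r × Fin 4 → ℕ) (he : ∀ i l l', e (i, l) % 2 = e (i, l') % 2)
    (U : Set ℝ) (hU : IsOpen U) (hne : U.Nonempty) (S : Finset Nat.Primes) (N : ℕ) :
    (∃ c₀ : ℝ, 0 < c₀ ∧ ∀ᶠ H : ℕ in atTop,
      c₀ * (families e H).card ≤ ({c ∈ families e H | LocallySoluble U c}.card : ℝ)) ∧
    Tendsto (fun H : ℕ =>
      ({c ∈ families e H | LocallySoluble U c ∧ Approximation U S N c}.card : ℝ) /
        ({c ∈ families e H | LocallySoluble U c}.card : ℝ)) atTop (𝓝 1) := by
  obtain ⟨c₀, hc₀, H₀, hpos⟩ := Pool.Agent.N718.DC.mainb4 r e U hU hne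
  have hA := Pool.Agent.N718.DC.maina4 r e he U hU S N
  have hpos' : ∀ H : ℕ, H₀ ≤ H →
      c₀ * (families e H).card ≤ ({c ∈ families e H | LocallySoluble U c}.card : ℝ) := by
    intro H hH
    rw [card_families]
    exact hpos H hH
  refine ⟨⟨c₀, hc₀, eventually_atTop.2 ⟨H₀, hpos'⟩⟩, ?_⟩
  rw [Metric.tendsto_atTop]
  intro ε hε
  obtain ⟨H₁, hH₁⟩ := hA (c₀ * (ε / 2)) (by positivity)
  refine ⟨max H₀ H₁, fun H hH => ?_⟩
  have h1 := hpos' H ((le_max_left _ _).trans hH)
  have h2 : ({c ∈ families e H | LocallySoluble U c ∧ ¬ Approximation U S N c}.card : ℝ) ≤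
      c₀ * (ε / 2) * (families e H).card := by
    rw [card_families]
    exact hH₁ H ((le_max_right _ _).trans hH)
  have hF : (0 : ℝ) < (families e H).card := by
    rw [card_families]
    positivity
  have hL : (0 : ℝ) < ({c ∈ families e H | LocallySoluble U c}.card : ℝ) :=
    lt_of_lt_of_le (by positivity) h1
  have hsplit : ({c ∈ families e H | LocallySoluble U c}.card : ℝ) =
      ({c ∈ families e H | LocallySoluble U c ∧ Approximation U S N c}.card : ℝ) +
        ({c ∈ families e H | LocallySoluble U c ∧ ¬ Approximation U S N c}.card : ℝ) := by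
    rw [← Nat.cast_add, Nat.cast_inj, ← Finset.filter_filter, ← Finset.filter_filter]
    exact (Finset.card_filter_add_card_filter_not (fun c => Approximation U S N c)).symm
  rw [Real.dist_eq, abs_sub_comm, abs_of_nonneg]
  · rw [sub_lt_comm, lt_div_iff₀ hL]
    have h3 : c₀ * (ε / 2) * (families e H).card ≤
        (ε / 2) * ({c ∈ families e H | LocallySoluble U c}.card : ℝ) := by
      nlinarith
    nlinarith
  · rw [sub_nonneg, div_le_one hL, hsplit]
    have : (0 : ℝ) ≤ ({c ∈ families e H | LocallySoluble U c ∧ ¬ Approximation U S N c}.card : ℝ) :=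
      Nat.cast_nonneg _
    linarith

end Pool.Agent.Results.MP_e426f4_ag.RandomDiagonalQuadricBundles
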